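import Pool.Agent.J4.H78.AT.Low

/-!
# Turán numbers of blowups of arbitrary rooted trees

`(T, R)` is a rooted tree: `T` is a tree, `R` a nonempty independent set of vertices, not all. We prove
for ALL rooted trees (balanced or not, the roots may be inner vertices and `T - R` may be disconnected)
`ex (n, t * T_R) = O(n ^ (2 - 1 / (k + 1)))` for all `t`, if every non-root has at most `k ≥ 1` root
neighbours; this is the best bound in terms of `k`: there are balanced rooted trees, all whose
non-roots have exactly `k` root neighbours, and numbers `t` such that `ex (n, t * T_R)` is at least of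
the order `n ^ (2 - 1 / (k + 1 - ε))`, `ε = 1 / (m + 1)` arbitrarily small. In a balanced rooted tree of
density `ρ` every non-root has at most `ρ` root neighbours, so that the Bukh-Conlon conjecture holds
for every balanced rooted tree with `⌊ρ⌋ + 1` in place of `ρ`.

Proof. If `T - R` is connected then `T` is contained in a tree with the same non-roots in which all
non-roots have `k` root neighbours, except one which has `k + 1`; this tree is balanced of density
`k + 1` and the starting result `IntegralTrees` applies. In general `T` is glued at roots from such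
trees. The gluing theorem of `GluedTrees` needs pieces with an automorphism that exchanges the colours;
every piece is contained in such a tree with the same `k`: take two copies and join them by an edge
between the two copies of a non-root.
-/

set_option autoImplicit false

namespace Pool.Agent.J4.H78.Old.AllRootedTreesTuran

open Pool.Agent.J4.H78.GL

/-- `(T, R)` is a rooted tree: `R` is a nonempty independent set of vertices of the tree `T`, not
containing all vertices. -/
def IsRooted {W : Type} (T : SimpleGraph W) (R : Set W) : Prop :=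
  T.IsTree ∧ R.Nonempty ∧ Rᶜ.Nonempty ∧ ∀ u ∈ R, ∀ v ∈ R, ¬ T.Adj u v

/-- the number of root neighbours of `a` -/
noncomputable def rootNbrs {W : Type} (T : SimpleGraph W) (R : Set W) (a : W) : ℕ :=
  ({u | u ∈ R ∧ T.Adj a u} : Set W).ncard

/-- `ex (n, t * T_R) ≥ c n ^ α` for some `t ≥ 1`, `c > 0` and all large `n`. -/
def BlowupLower {W : Type} (T : SimpleGraph W) (R : Set W) (α : ℝ) : Prop :=
  ∃ t : ℕ, 0 < t ∧ ∃ c : ℝ, 0 < c ∧ ∃ n0 : ℕ, ∀ n : ℕ, n0 ≤ n → ∃ G : SimpleGraph (Fin n),
    ¬ ContainsBlowup T R t G ∧ c * (n : ℝ) ^ α ≤ (G.edgeSet.ncard : ℝ)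

/-- (1) `ex (n, t * T_R) = O (n ^ (2 - 1 / (k + 1)))` for all `t` and all rooted trees all whose
non-roots have at most `k` root neighbours; (2) for no `k` this holds with a smaller exponent, even
for balanced trees; (3) `ex (n, t * T_R) = O (n ^ (2 - 1 / (⌊ρ⌋ + 1)))` for all `t` and all balanced
rooted trees of density `ρ`; (4) in (1), if `T - R` is connected, one non-root may have `k + 1` root
neighbours. -/
theorem result :
    (∀ k : ℕ, 1 ≤ k → ∀ (W : Type) [Finite W] (T : SimpleGraph W) (R : Set W), IsRooted T R →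
      (∀ a, a ∉ R → rootNbrs T R a ≤ k) → BlowupBound T R (2 - 1 / ((k : ℝ) + 1))) ∧
    (∀ k : ℕ, 1 ≤ k → ∀ m : ℕ, ∃ (W : Type) (_ : Finite W) (T : SimpleGraph W) (R : Set W),
      IsRooted T R ∧ (T.induce Rᶜ).Connected ∧ (∀ a, a ∉ R → rootNbrs T R a = k) ∧
      BalancedDensity T R ((k : ℝ) + 1 - 1 / ((m : ℝ) + 1)) ∧
      BlowupLower T R (2 - 1 / ((k : ℝ) + 1 - 1 / ((m : ℝ) + 1)))) ∧
    (∀ (W : Type) [Finite W] (T : SimpleGraph W) (R : Set W), IsRooted T R →
      ∀ ρ : ℝ, BalancedDensity T R ρ → BlowupBound T R (2 - 1 / ((⌊ρ⌋₊ : ℝ) + 1))) ∧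
    (∀ k : ℕ, 1 ≤ k → ∀ (W : Type) [Finite W] (T : SimpleGraph W) (R : Set W), IsRooted T R →
      (T.induce Rᶜ).Connected → ∀ c, c ∉ R → rootNbrs T R c ≤ k + 1 →
      (∀ a, a ∉ R → a ≠ c → rootNbrs T R a ≤ k) → BlowupBound T R (2 - 1 / ((k : ℝ) + 1))) := by
  refine ⟨?_, ?_, ?_, ?_⟩
  · intro k hk W _ T R ⟨h1, h2, h3, h4⟩ h5
    exact Pool.Agent.J4.H78.AT.all_trees h1 h2 h3 h4 hk h5
  · intro k hk m
    obtain ⟨W, hW, T, R, h1, h2, h3, h4, h5, h6, h7, h8⟩ :=
      Pool.Agent.J4.H78.AT.uniform_lower k m hk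
    exact ⟨W, hW, T, R, ⟨h1, h2, h3, h4⟩, h5, h6, h7, h8⟩
  · intro W _ T R ⟨h1, h2, h3, h4⟩ ρ hρ
    exact Pool.Agent.J4.H78.AT.balanced_trees h1 h2 h3 h4 hρ
  · intro k hk W _ T R ⟨h1, h2, h3, h4⟩ h5 c hc h6 h7
    exact Pool.Agent.J4.H78.AT.bound_piece ⟨h1, h2, h3, h4, h5⟩ hk c hc h7 h6

end Pool.Agent.J4.H78.Old.AllRootedTreesTuran
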